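import Pool.Agent.Helper69.UX.StD

/-!
# Project UX, module NIA: nearly identical partitions, matched part
-/

set_option autoImplicit false

namespace Pool.Agent.Helper8.UX

open Finset Filter Pool.Agent.Helper82.CN Pool.Agent.Helper11.PV Pool.Agent.Helper69.VX
  Pool.Agent.Helper69.UX

/-- the class sizes add up to `n` -/
lemma sum_card_Pt {n : ℕ} {P : Finset (Finset (Fin n))} (hP : P ∈ Pt (Fin n)) :
    ∑ C ∈ P, C.card = n := by
  unfold Pt at hP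
  simp only [Finset.mem_filter, Finset.mem_univ, true_and] at hP
  have h := Finset.card_biUnion (s := P) (t := fun A => A)
    (fun A hA B hB hAB => hP.2.1 A hA B hB hAB)
  rw [← h]
  have h2 : P.biUnion (fun A => A) = Finset.univ := by
    ext v
    simp only [Finset.mem_biUnion, Finset.mem_univ, iff_true]
    exact hP.2.2 v
  rw [h2, Finset.card_univ, Fintype.card_fin]

lemma unmatched {n : ℕ} {P I : Finset (Finset (Fin n))} (hP : P ∈ Pt (Fin n)) (hI : I ⊆ P)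
    {N₀ t₀ : ℕ} (hN₀ : N₀ = n - ∑ C ∈ I, C.card) (ht₀ : P.card = I.card + t₀) :
    t₀ = (P \ I).card ∧ N₀ = ∑ C ∈ P \ I, C.card := by
  constructor
  · rw [Finset.card_sdiff_of_subset hI]
    omega
  · have h1 := sum_card_Pt hP
    have h2 := Finset.sum_sdiff (f := fun C : Finset (Fin n) => C.card) hI
    omega

lemma D_low {n T : ℕ} (U : Finset (Finset (Fin n))) :
    (U.card : ℝ) * T - ((∑ C ∈ U, (T - C.card) : ℕ) : ℝ) ≤ ((∑ C ∈ U, C.card : ℕ) : ℝ) := by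
  have h : U.card * T ≤ ∑ C ∈ U, (T - C.card) + ∑ C ∈ U, C.card := by
    rw [← Finset.sum_add_distrib, ← smul_eq_mul, ← Finset.sum_const]
    exact Finset.sum_le_sum fun C _ => by omega
  have h2 : (U.card : ℝ) * T ≤ ((∑ C ∈ U, (T - C.card) : ℕ) : ℝ) + ((∑ C ∈ U, C.card : ℕ) : ℝ) := by
    exact_mod_cast h
  linarith

lemma D_up {n T : ℕ} (P U : Finset (Finset (Fin n))) (hU : U ⊆ P) (h : ℕ) :
    ((∑ C ∈ U, (T - C.card) : ℕ) : ℝ) ≤ (U.card : ℝ) * h +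
      ∑ C ∈ P.filter (fun C => h ≤ T - C.card), ((T - C.card : ℕ) : ℝ) ^ 2 := by
  have h1 : ((∑ C ∈ U, (T - C.card) : ℕ) : ℝ) ≤
      ∑ C ∈ U, ((h : ℝ) + if h ≤ T - C.card then ((T - C.card : ℕ) : ℝ) ^ 2 else 0) := by
    rw [Nat.cast_sum]
    refine Finset.sum_le_sum fun C _ => ?_
    split_ifs with hc
    · have h2 : T - C.card ≤ (T - C.card) ^ 2 := Nat.le_self_pow (by norm_num) _
      have h3 : ((T - C.card : ℕ) : ℝ) ≤ ((T - C.card : ℕ) : ℝ) ^ 2 := by exact_mod_cast h2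
      have h4 : (0 : ℝ) ≤ h := Nat.cast_nonneg _
      linarith
    · have h2 : T - C.card ≤ h := by omega
      have h3 : ((T - C.card : ℕ) : ℝ) ≤ h := by exact_mod_cast h2
      linarith
  refine h1.trans ?_
  rw [Finset.sum_add_distrib, Finset.sum_const, nsmul_eq_mul, Finset.sum_filter]
  have h2 : ∑ C ∈ U, (if h ≤ T - C.card then ((T - C.card : ℕ) : ℝ) ^ 2 else 0) ≤
      ∑ C ∈ P, (if h ≤ T - C.card then ((T - C.card : ℕ) : ℝ) ^ 2 else 0) := by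
    refine Finset.sum_le_sum_of_subset_of_nonneg hU fun C _ _ => ?_
    split_ifs
    · positivity
    · exact le_refl _
  linarith

lemma t_up {n T : ℕ} (P U : Finset (Finset (Fin n))) (hU : U ⊆ P) :
    (U.card : ℝ) * T ≤ 2 * ((∑ C ∈ U, C.card : ℕ) : ℝ) +
      T * ∑ C ∈ P.filter (fun C => (T + 1) / 2 ≤ T - C.card), ((T - C.card : ℕ) : ℝ) ^ 2 := by
  have h1 : (U.card : ℝ) * T ≤
      ∑ C ∈ U, (2 * (C.card : ℝ) + T * if (T + 1) / 2 ≤ T - C.card then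
        ((T - C.card : ℕ) : ℝ) ^ 2 else 0) := by
    rw [← nsmul_eq_mul, ← Finset.sum_const]
    refine Finset.sum_le_sum fun C _ => ?_
    split_ifs with hc
    · by_cases h2 : T ≤ 2 * C.card
      · have h3 : (T : ℝ) ≤ 2 * (C.card : ℝ) := by exact_mod_cast h2
        have h4 : (0 : ℝ) ≤ T * ((T - C.card : ℕ) : ℝ) ^ 2 := by positivity
        linarith
      · have h3 : 1 ≤ (T - C.card) ^ 2 := Nat.one_le_pow _ _ (by omega)
        have h4 : (1 : ℝ) ≤ ((T - C.card : ℕ) : ℝ) ^ 2 := by exact_mod_cast h3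
        have h5 : (T : ℝ) * 1 ≤ T * ((T - C.card : ℕ) : ℝ) ^ 2 :=
          mul_le_mul_of_nonneg_left h4 (Nat.cast_nonneg _)
        have h6 : (0 : ℝ) ≤ (C.card : ℝ) := Nat.cast_nonneg _
        linarith
    · have h2 : T ≤ 2 * C.card := by omega
      have h3 : (T : ℝ) ≤ 2 * (C.card : ℝ) := by exact_mod_cast h2
      linarith
  refine h1.trans ?_
  rw [Finset.sum_add_distrib, ← Finset.mul_sum, ← Finset.mul_sum, Finset.sum_filter, Nat.cast_sum]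
  have h2 : ∑ C ∈ U, (if (T + 1) / 2 ≤ T - C.card then ((T - C.card : ℕ) : ℝ) ^ 2 else 0) ≤
      ∑ C ∈ P, (if (T + 1) / 2 ≤ T - C.card then ((T - C.card : ℕ) : ℝ) ^ 2 else 0) := by
    refine Finset.sum_le_sum_of_subset_of_nonneg hU fun C _ _ => ?_
    split_ifs
    · positivity
    · exact le_refl _
  have h3 := mul_le_mul_of_nonneg_left h2 (Nat.cast_nonneg (α := ℝ) T)
  linarith

lemma bb_bounds {p : ℝ} (hp0 : 0 < p) (hp1 : p ≤ 1 - 1 / Real.exp 2) : 0 < bb p ∧ bb p ≤ 2 := by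
  have h1 : 0 < 1 / Real.exp 2 := by positivity
  have h2 : 1 / Real.exp 2 ≤ 1 - p := by linarith
  have h3 : 0 < 1 - p := by linarith
  unfold bb
  constructor
  · apply Real.log_pos
    rw [lt_div_iff₀ h3]
    linarith
  · rw [Real.log_le_iff_le_exp (by positivity)]
    rw [div_le_iff₀ h3]
    have h4 : Real.exp 2 * (1 / Real.exp 2) = 1 := by field_simp
    have h5 := mul_le_mul_of_nonneg_left h2 (Real.exp_pos 2).le
    linarith

lemma Om_pos {p : ℝ} (hp1 : p < 1) {n T N : ℕ} (hn : 0 < n) (hT : 0 < T) (hN : 0 < N) :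
    0 < Om p n T N := by
  unfold Om
  apply Finset.sum_pos
  · intro v _
    unfold xi om
    have : 0 < 1 - p := by linarith
    have h1 : (0 : ℝ) < n := by exact_mod_cast hn
    have h2 : (0 : ℝ) < T := by exact_mod_cast hT
    have h3 : (0 : ℝ) < N := by exact_mod_cast hN
    have h4 : (0 : ℝ) < (v.factorial : ℝ) := by exact_mod_cast v.factorial_pos
    positivity
  · exact ⟨1, Finset.mem_Icc.2 ⟨le_refl _, by omega⟩⟩

lemma num_b {C lam s z N Y : ℝ} (hC : 4 * C ≤ lam) (hs : 0 ≤ s + 1) (hz : 0 ≤ z) (hN : 0 ≤ N)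
    (h : lam * z ≤ Y) (hY : (s + 1) * Y ≤ 2 * N) : C * (s + 1) * z ≤ N := by
  have e1 : 4 * C * ((s + 1) * z) ≤ lam * ((s + 1) * z) :=
    mul_le_mul_of_nonneg_right hC (mul_nonneg hs hz)
  have e2 : (s + 1) * (lam * z) ≤ (s + 1) * Y := mul_le_mul_of_nonneg_left h hs
  have e3 : lam * ((s + 1) * z) = (s + 1) * (lam * z) := by ring
  have e4 : 4 * C * ((s + 1) * z) = 4 * (C * (s + 1) * z) := by ring
  linarith

/-- the final numerical inequality -/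
lemma final_num {ε lam N N₀ s t₀ D T3 C₁ C₉ X : ℝ} (hε : 0 < ε) (hN : 0 ≤ N)
    (h1 : T3 ≤ N) (h2 : t₀ * lam ≤ 4 * N) (h3 : C₁ * (s + 1) * lam ^ 2 ≤ N)
    (h4 : D * lam ≤ ε / 16 * N * lam + 5 * N) (h5 : s ≤ N) (hC₁ : 1 ≤ C₁) (hC₉ : 1 ≤ C₉)
    (h6 : 2 * N₀ < N) (h7 : 16 / ε * (14 + 4 * C₁ + 2 * C₉) ≤ lam)
    (hX : X ≤ C₁ * t₀ * lam + C₁ * (s + 1) * lam ^ 2 + D * lam) :
    t₀ * lam + (T3 + X + -(ε / 4) * (N - N₀) * lam + C₉ * (N + s)) ≤ -(3 * N) := by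
  have hlam : 0 ≤ lam := by
    have : 0 ≤ 16 / ε * (14 + 4 * C₁ + 2 * C₉) := by positivity
    linarith
  have e1 : -(ε / 4) * (N - N₀) * lam ≤ -(ε / 8) * N * lam := by
    have : 0 ≤ ε / 4 * lam := by positivity
    nlinarith
  have e2 : C₁ * t₀ * lam ≤ 4 * C₁ * N := by
    have : C₁ * (t₀ * lam) ≤ C₁ * (4 * N) := mul_le_mul_of_nonneg_left h2 (by linarith)
    linarith
  have e3 : C₉ * (N + s) ≤ 2 * C₉ * N := by
    have : C₉ * (N + s) ≤ C₉ * (2 * N) := mul_le_mul_of_nonneg_left (by linarith) (by linarith)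
    linarith
  have e4 : (14 + 4 * C₁ + 2 * C₉) ≤ ε / 16 * lam := by
    have : ε / 16 * (16 / ε * (14 + 4 * C₁ + 2 * C₉)) ≤ ε / 16 * lam :=
      mul_le_mul_of_nonneg_left h7 (by positivity)
    have e5 : ε / 16 * (16 / ε * (14 + 4 * C₁ + 2 * C₉)) = 14 + 4 * C₁ + 2 * C₉ := by
      field_simp
    linarith
  have e5 : N * (14 + 4 * C₁ + 2 * C₉) ≤ N * (ε / 16 * lam) := mul_le_mul_of_nonneg_left e4 hN
  nlinarith

theorem hNIA (hNIP : StNIP) (hNIR : StNIR) (hSIZ : StSIZ) : StNIA := by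
  classical
  intro p ε C₀ hp0 hp1 hε0 hε1 hC₀
  obtain ⟨C₉, hC₉, n1, hP⟩ := hNIP p ε C₀ hp0 hp1 hε0 hε1 hC₀
  obtain ⟨C₁, hC₁, n2, hR⟩ := hNIR p ε hp0 hp1 hε0 hε1
  obtain ⟨hL0, hL2⟩ := bb_bounds hp0 hp1
  set L := bb p with hL
  obtain ⟨Λ, hΛ⟩ : ∃ Λ : ℝ, Λ = 4 * C₀ + 4 * C₁ + 4 / (L * (ε / 64) ^ 2) +
    16 / ε * (14 + 4 * C₁ + 2 * C₉) + 4 := ⟨_, rfl⟩
  have hA1 : 0 ≤ 4 / (L * (ε / 64) ^ 2) := by positivity
  have hA2 : 0 ≤ 16 / ε * (14 + 4 * C₁ + 2 * C₉) := by positivity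
  have hΛ0 : 0 < Λ := by rw [hΛ]; linarith
  obtain ⟨δ, hδ⟩ : ∃ δ : ℝ, δ = min (ε / 16) (1 / Λ) := ⟨_, rfl⟩
  have hδ0 : 0 < δ := by rw [hδ]; exact lt_min (by linarith) (by positivity)
  have hδε : δ ≤ ε / 16 := by rw [hδ]; exact min_le_left _ _
  have hδΛ : δ ≤ 1 / Λ := by rw [hδ]; exact min_le_right _ _
  obtain ⟨n3, hS⟩ := hSIZ p ε δ 0 hp0 hp1 hε0 hε1 hδ0
  refine ⟨max (max n1 n2) n3, ?_⟩
  intro n T N N₀ t₀ th s K₀ P I hn hW hSml hI hs0 hsN hN1 hNn hN₀ ht₀ h2N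
  have hn1 : n1 ≤ n := le_trans (le_trans (le_max_left _ _) (le_max_left _ _)) hn
  have hn2 : n2 ≤ n := le_trans (le_trans (le_max_right _ _) (le_max_left _ _)) hn
  have hn3 : n3 ≤ n := le_trans (le_max_right _ _) hn
  have hSz := hS n T th hn3 hW
  obtain ⟨lam, hlam⟩ : ∃ lam : ℝ, lam = Real.log n := ⟨_, rfl⟩
  have t0 := hSz.t0
  have t1 := hSz.t1
  have t3 := hSz.t3
  have t6 := hSz.t6
  obtain ⟨t4, t4'⟩ := hSz.t4
  rw [← hlam] at t0 t1 t6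
  have hlamΛ : Λ ≤ lam := by
    refine le_trans ?_ t0
    rw [le_div_iff₀ hδ0]
    have := mul_le_mul_of_nonneg_left hδΛ hΛ0.le
    have h2 : Λ * (1 / Λ) = 1 := by field_simp
    linarith
  have hl1 : 4 * C₀ ≤ lam := by linarith
  have hl2 : 4 * C₁ ≤ lam := by linarith
  have hl3 : 4 / (L * (ε / 64) ^ 2) ≤ lam := by linarith
  have hl4 : 16 / ε * (14 + 4 * C₁ + 2 * C₉) ≤ lam := by linarith
  have hl5 : 4 ≤ lam := by linarith
  have hT4 : (4 : ℝ) ≤ T := by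
    have : 4 ≤ T := by omega
    exact_mod_cast this
  have hn0 : 0 < n := by omega
  have hnr : (1 : ℝ) ≤ n := by exact_mod_cast hn0
  have hnpos : (0 : ℝ) < n := by linarith
  have hexp : Real.exp lam = n := by rw [hlam, Real.exp_log hnpos]
  -- the power `y`
  obtain ⟨y, hy⟩ : ∃ y : ℝ, y = (n : ℝ) ^ (ε / 16) := ⟨_, rfl⟩
  have hy1 : 1 ≤ y := by
    rw [hy]
    exact Real.one_le_rpow hnr (by positivity)
  have hδy : (n : ℝ) ^ δ ≤ y := by
    rw [hy]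
    exact Real.rpow_le_rpow_of_exponent_le hnr hδε
  have hy8 : y ^ 8 = (n : ℝ) ^ (ε / 2) := by
    rw [hy, ← Real.rpow_natCast, ← Real.rpow_mul hnpos.le]
    congr 1
    push_cast
    ring
  have hy8N : y ^ 8 ≤ N := by
    rw [hy8]
    exact (Real.rpow_le_rpow_of_exponent_le hnr (by linarith)).trans hN1
  have hsy : s * y ^ 8 ≤ N := by rw [hy8]; exact hsN
  have hTy : (T : ℝ) ≤ y := by
    have : (T : ℝ) ≤ (T : ℝ) ^ 8 := le_self_pow₀ (by linarith) (by norm_num)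
    linarith
  have hly : lam ≤ y := by
    have : lam ≤ lam ^ 8 := le_self_pow₀ (by linarith) (by norm_num)
    linarith
  have hT3 : (T : ℝ) ^ 3 ≤ N := by
    have h1 : (T : ℝ) ^ 3 ≤ (T : ℝ) ^ 8 := pow_le_pow_right₀ (by linarith) (by norm_num)
    have h2 : y ≤ y ^ 8 := le_self_pow₀ hy1 (by norm_num)
    linarith
  have hN0 : (0 : ℝ) ≤ N := Nat.cast_nonneg _
  have hNpos : (0 : ℝ) < N := by
    have : (1 : ℝ) ≤ y ^ 8 := one_le_pow₀ hy1
    linarith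
  have hNpos' : 0 < N := by exact_mod_cast hNpos
  have hsN2 : s ≤ N := by
    have : s * 1 ≤ s * y ^ 8 := mul_le_mul_of_nonneg_left (one_le_pow₀ hy1) hs0
    linarith
  have hs1y : (s + 1) * y ^ 8 ≤ 2 * N := by linarith
  have hs1 : 0 ≤ s + 1 := by linarith
  have hypow : ∀ k : ℕ, k ≤ 8 → y ^ k ≤ y ^ 8 := fun k hk => pow_le_pow_right₀ hy1 hk
  have hlam0 : 0 ≤ lam := by linarith
  have hT0 : (0 : ℝ) ≤ T := by linarith
  have b1 : C₁ * (s + 1) * lam ^ 2 ≤ N := by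
    refine num_b hl2 hs1 (sq_nonneg _) hN0 ?_ hs1y
    have e2 : lam ^ 3 ≤ y ^ 8 := (pow_le_pow_left₀ hlam0 hly 3).trans (hypow 3 (by norm_num))
    calc lam * lam ^ 2 = lam ^ 3 := by ring
      _ ≤ y ^ 8 := e2
  have b2 : C₀ * (s + 1) * lam ≤ N := by
    refine num_b hl1 hs1 hlam0 hN0 ?_ hs1y
    have e2 : lam ^ 2 ≤ y ^ 8 := (pow_le_pow_left₀ hlam0 hly 2).trans (hypow 2 (by norm_num))
    calc lam * lam = lam ^ 2 := by ring
      _ ≤ y ^ 8 := e2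
  have b3 : T * (C₀ * (s + 1)) ≤ N := by
    rw [mul_comm]
    refine num_b hl1 hs1 hT0 hN0 ?_ hs1y
    calc lam * T ≤ y * y := mul_le_mul hly hTy hT0 (by linarith)
      _ = y ^ 2 := by ring
      _ ≤ y ^ 8 := hypow 2 (by norm_num)
  have hεl : ε / 64 * lam ≤ 1 / 4 * lam := mul_le_mul_of_nonneg_right (by linarith) hlam0
  -- sizes
  have hTlam : lam ≤ 2 * T := by
    have h1 := (abs_le.1 t1).1
    have h2 : δ * lam ≤ 1 * lam := mul_le_mul_of_nonneg_right (by linarith) hlam0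
    have h3 : L * T ≤ 2 * T := mul_le_mul_of_nonneg_right hL2 hT0
    linarith
  obtain ⟨hPt, hcard, hK0, hKT, hPT, hsmall⟩ := hSml
  have hK : K₀ ≤ n := by
    have : K₀ * 4 ≤ K₀ * T := mul_le_mul_of_nonneg_left hT4 hK0
    linarith
  have hPn : (P.card : ℝ) ≤ n := by
    have : (P.card : ℝ) * 4 ≤ P.card * T := mul_le_mul_of_nonneg_left hT4 (Nat.cast_nonneg _)
    have h2 : (0 : ℝ) ≤ P.card := Nat.cast_nonneg _
    linarith
  have hsm : ∀ h : ℕ, h ≤ T → ε / 64 * lam ≤ h →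
      ∑ C ∈ P.filter (fun C => h ≤ T - C.card), ((T - C.card : ℕ) : ℝ) ^ 2 ≤ C₀ * (s + 1) := by
    intro h hhT hh
    refine (hsmall h hhT).trans ?_
    have h1 : K₀ * Real.exp (-(L * (h : ℝ) ^ 2 / 4)) ≤ 1 := by
      have h2 : lam ≤ L * (h : ℝ) ^ 2 / 4 := by
        have e1 : (ε / 64 * lam) ^ 2 ≤ (h : ℝ) ^ 2 := pow_le_pow_left₀ (by positivity) hh 2
        have e2 : L * (ε / 64 * lam) ^ 2 ≤ L * (h : ℝ) ^ 2 := mul_le_mul_of_nonneg_left e1 hL0.le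
        have e3 : 4 ≤ lam * (L * (ε / 64) ^ 2) := by
          rwa [div_le_iff₀ (by positivity)] at hl3
        have e4 : 4 * lam ≤ lam * (L * (ε / 64) ^ 2) * lam := mul_le_mul_of_nonneg_right e3 hlam0
        have e5 : L * (ε / 64 * lam) ^ 2 = lam * (L * (ε / 64) ^ 2) * lam := by ring
        linarith
      have h3 : Real.exp (-(L * (h : ℝ) ^ 2 / 4)) ≤ Real.exp (-lam) :=
        Real.exp_le_exp.2 (by linarith)
      calc K₀ * Real.exp (-(L * (h : ℝ) ^ 2 / 4)) ≤ n * Real.exp (-lam) :=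
            mul_le_mul hK h3 (Real.exp_pos _).le hnpos.le
        _ = 1 := by rw [← hexp, ← Real.exp_add]; simp
    have h4 : s + K₀ * Real.exp (-(L * (h : ℝ) ^ 2 / 4)) ≤ s + 1 := by linarith
    exact mul_le_mul_of_nonneg_left h4 (by linarith)
  obtain ⟨hu1, hu2⟩ := unmatched hPt hI hN₀ ht₀
  obtain ⟨D, hD⟩ : ∃ D : ℕ, D = ∑ C ∈ P \ I, (T - C.card) := ⟨_, rfl⟩
  have hD0 : (0 : ℝ) ≤ D := Nat.cast_nonneg _
  have d1 : (t₀ : ℝ) * T - D ≤ N₀ := by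
    have := D_low (T := T) (P \ I)
    rw [← hu1, ← hu2, ← hD] at this
    exact this
  have h2Nr : 2 * (N₀ : ℝ) < N := by exact_mod_cast h2N
  have d2 : (t₀ : ℝ) * T ≤ 2 * N := by
    have h1 := t_up (T := T) P (P \ I) Finset.sdiff_subset
    rw [← hu1, ← hu2] at h1
    have h2 : ε / 64 * lam ≤ (((T + 1) / 2 : ℕ) : ℝ) := by
      have e1 : T ≤ 2 * ((T + 1) / 2) := by omega
      have e2 : (T : ℝ) ≤ 2 * (((T + 1) / 2 : ℕ) : ℝ) := by exact_mod_cast e1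
      linarith
    have h3 := hsm ((T + 1) / 2) (by omega) h2
    have h4 := mul_le_mul_of_nonneg_left h3 hT0
    linarith
  have d3 : (t₀ : ℝ) * lam ≤ 4 * N := by
    have : (t₀ : ℝ) * lam ≤ t₀ * (2 * T) := mul_le_mul_of_nonneg_left hTlam (Nat.cast_nonneg _)
    linarith
  have d4 : (D : ℝ) * lam ≤ ε / 16 * N * lam + 5 * N := by
    obtain ⟨h, hh⟩ : ∃ h : ℕ, h = ⌈ε / 64 * lam⌉₊ := ⟨_, rfl⟩
    have h1 : ε / 64 * lam ≤ h := by rw [hh]; exact Nat.le_ceil _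
    have h2 : (h : ℝ) < ε / 64 * lam + 1 := by rw [hh]; exact Nat.ceil_lt_add_one (by positivity)
    have h3 : h ≤ T := by
      have : (h : ℝ) ≤ T := by linarith
      exact_mod_cast this
    have h4 := D_up (T := T) P (P \ I) Finset.sdiff_subset h
    rw [← hu1, ← hD] at h4
    have h5 := hsm h h3 h1
    have h6 : (D : ℝ) ≤ t₀ * (ε / 64 * lam + 1) + C₀ * (s + 1) := by
      have : (t₀ : ℝ) * h ≤ t₀ * (ε / 64 * lam + 1) :=
        mul_le_mul_of_nonneg_left h2.le (Nat.cast_nonneg _)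
      linarith
    have h7 : (D : ℝ) * lam ≤ (t₀ * (ε / 64 * lam + 1) + C₀ * (s + 1)) * lam :=
      mul_le_mul_of_nonneg_right h6 hlam0
    have h8 : (t₀ * lam) * (ε / 64 * lam + 1) ≤ 4 * N * (ε / 64 * lam + 1) :=
      mul_le_mul_of_nonneg_right d3 (by positivity)
    have h9 : ((t₀ : ℝ) * (ε / 64 * lam + 1) + C₀ * (s + 1)) * lam =
        (t₀ * lam) * (ε / 64 * lam + 1) + C₀ * (s + 1) * lam := by ring
    have h10 : 4 * (N : ℝ) * (ε / 64 * lam + 1) = ε / 16 * N * lam + 4 * N := by ring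
    linarith
  -- NIR
  have r1 := hR n T N N₀ t₀ th s D hn2 hW hN1 hNn hs0 hD0 d1
  rw [← hlam] at r1
  have hNnr : (N : ℝ) ≤ n := by exact_mod_cast hNn
  have r2 : 0 ≤ 3 / (2 * L) * t₀ * Real.log ((n : ℝ) / N) * lam := by
    have : 0 ≤ Real.log ((n : ℝ) / N) := Real.log_nonneg (by rw [le_div_iff₀ hNpos]; linarith)
    positivity
  obtain ⟨t, ht⟩ : ∃ t : ℝ, t = t₀ + s + 1 := ⟨_, rfl⟩
  have htpos : 0 < t := by
    have : (0 : ℝ) ≤ t₀ := Nat.cast_nonneg _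
    linarith
  rw [← ht] at r1
  obtain ⟨X, hX⟩ : ∃ X : ℝ, X = t * Real.log (Real.exp 1 * Om p n T N / t) -
    N₀ * Real.log ((n : ℝ) / T) := ⟨_, rfl⟩
  rw [← hX] at r1
  have r3 : X ≤ C₁ * t₀ * lam + C₁ * (s + 1) * lam ^ 2 + D * lam := by linarith
  have hfin := final_num hε0 hN0 hT3 d3 b1 d4 hsN2 hC₁ hC₉ h2Nr hl4 r3
  -- NIP
  have hpr := hP n T N th (ε / 4) s K₀ P I hn1 hW ⟨hPt, hcard, hK0, hKT, hPT, hsmall⟩ hI
    (by positivity) (le_refl _) hs0 hN1 hNn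
  have hΩ : 0 < Om p n T N := by
    apply Om_pos _ hn0 (by omega) hNpos'
    have : 0 < 1 / Real.exp 2 := by positivity
    linarith
  have c1 : (Real.exp 1 * Om p n T N / t) ^ t =
      Real.exp (t * Real.log (Real.exp 1 * Om p n T N / t)) := by
    rw [Real.rpow_def_of_pos (by positivity), mul_comm]
  have c2 : ((T : ℝ) / n) ^ N₀ = Real.exp (-(N₀ * Real.log ((n : ℝ) / T))) := by
    have e1 : Real.log ((T : ℝ) / n) = - Real.log ((n : ℝ) / T) := by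
      rw [← Real.log_inv, inv_div]
    have e2 : (0 : ℝ) < (T : ℝ) / n := by positivity
    rw [← Real.rpow_natCast, Real.rpow_def_of_pos e2, e1]
    congr 1
    ring
  have c3 : (n : ℝ) ^ (-(ε / 4) * ((N : ℝ) - N₀)) = Real.exp (-(ε / 4) * (N - N₀) * lam) := by
    rw [Real.rpow_def_of_pos hnpos, ← hlam]
    congr 1
    ring
  have hNB : NB p ε (ε / 4) (t₀ + s + 1) n T N N₀ I ≤
      Real.exp ((T : ℝ) ^ 3 + X + -(ε / 4) * (N - N₀) * lam + C₉ * (N + s)) := by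
    unfold NB
    rw [← ht, c1, c2, c3, ← Real.exp_add, ← Real.exp_add, ← Real.exp_add]
    calc Real.exp ((T : ℝ) ^ 3 + t * Real.log (Real.exp 1 * Om p n T N / t) +
          -(N₀ * Real.log ((n : ℝ) / T)) + -(ε / 4) * (N - N₀) * lam) *
          ∏ C ∈ I, SF p (ε / 4) n T (RR ε T) N C.card ≤
          Real.exp ((T : ℝ) ^ 3 + t * Real.log (Real.exp 1 * Om p n T N / t) +
          -(N₀ * Real.log ((n : ℝ) / T)) + -(ε / 4) * (N - N₀) * lam) *
          Real.exp (C₉ * (N + s)) := mul_le_mul_of_nonneg_left hpr (Real.exp_pos _).le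
      _ = _ := by
          rw [← Real.exp_add, hX]
          congr 1
          ring
  have hch : (P.card.choose t₀ : ℝ) ≤ Real.exp (t₀ * lam) := by
    have e1 : P.card.choose t₀ ≤ P.card ^ t₀ := Nat.choose_le_pow _ _
    have e2 : (P.card.choose t₀ : ℝ) ≤ (P.card : ℝ) ^ t₀ := by exact_mod_cast e1
    have e3 : (P.card : ℝ) ^ t₀ ≤ (n : ℝ) ^ t₀ := pow_le_pow_left₀ (Nat.cast_nonneg _) hPn _
    refine (e2.trans e3).trans (le_of_eq ?_)
    rw [← hexp, ← Real.exp_nat_mul]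
  calc (P.card.choose t₀ : ℝ) * NB p ε (ε / 4) (t₀ + s + 1) n T N N₀ I ≤
      Real.exp (t₀ * lam) *
        Real.exp ((T : ℝ) ^ 3 + X + -(ε / 4) * (N - N₀) * lam + C₉ * (N + s)) :=
        (mul_le_mul_of_nonneg_left hNB (Nat.cast_nonneg _)).trans
          (mul_le_mul_of_nonneg_right hch (Real.exp_pos _).le)
    _ = Real.exp (t₀ * lam +
        ((T : ℝ) ^ 3 + X + -(ε / 4) * (N - N₀) * lam + C₉ * (N + s))) := (Real.exp_add _ _).symm
    _ ≤ Real.exp (-(3 * (N : ℝ))) := Real.exp_le_exp.2 hfin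

end Pool.Agent.Helper8.UX
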