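import Pool.Agent.Helper69.UX.StA

/-!
# Project UX, module VBD: the variance bound
-/

set_option autoImplicit false

namespace Pool.Agent.Helper8.UX

open Finset Filter Pool.Agent.Helper82.CN Pool.Agent.Helper11.PV Pool.Agent.Helper69.VX
  Pool.Agent.Helper69.UX

/-- superadditivity -/
lemma choose_add (a b : ℕ) : a.choose 2 + b.choose 2 ≤ (a + b).choose 2 := by
  induction b with
  | zero => simp
  | succ b ih =>
    have h1 : (b + 1).choose 2 = b.choose 1 + b.choose 2 := Nat.choose_succ_succ b 1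
    have h2 : (a + (b + 1)).choose 2 = (a + b).choose 1 + (a + b).choose 2 :=
      Nat.choose_succ_succ (a + b) 1
    rw [h1, h2, Nat.choose_one_right, Nat.choose_one_right]
    omega

lemma choose_sum {σ : Type} (s : Finset σ) (f : σ → ℕ) :
    ∑ x ∈ s, (f x).choose 2 ≤ (∑ x ∈ s, f x).choose 2 := by
  classical
  induction s using Finset.induction_on with
  | empty => simp
  | insert a s ha ih =>
    rw [Finset.sum_insert ha, Finset.sum_insert ha]
    exact (Nat.add_le_add_left ih _).trans (choose_add _ _)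

variable {V : Type} [Fintype V] [DecidableEq V]

omit [DecidableEq V] in
lemma mem_Pt {P : Finset (Finset V)} : P ∈ Pt V ↔ (∀ A ∈ P, A.Nonempty) ∧
    (∀ A ∈ P, ∀ B ∈ P, A ≠ B → Disjoint A B) ∧ ∀ v : V, ∃ A ∈ P, v ∈ A := by
  unfold Pt
  simp only [Finset.mem_filter, Finset.mem_univ, true_and]

lemma ovl_le_left {P Q : Finset (Finset V)} (hQ : Q ∈ Pt V) : ovl P Q ≤ inn P := by
  rw [mem_Pt] at hQ
  unfold ovl inn
  refine Finset.sum_le_sum fun A _ => ?_
  refine (choose_sum Q fun B => (A ∩ B).card).trans ?_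
  apply Nat.choose_le_choose
  rw [← Finset.card_biUnion]
  · apply Finset.card_le_card
    intro v hv
    rw [Finset.mem_biUnion] at hv
    obtain ⟨B, _, hv⟩ := hv
    exact (Finset.mem_inter.1 hv).1
  · intro B hB C hC hBC
    exact (hQ.2.1 B hB C hC hBC).mono Finset.inter_subset_right Finset.inter_subset_right

omit [Fintype V] in
lemma ovl_symm (P Q : Finset (Finset V)) : ovl P Q = ovl Q P := by
  unfold ovl
  rw [Finset.sum_comm]
  simp only [Finset.inter_comm]

lemma card_sum {P : Finset (Finset V)} (hP : P ∈ Pt V) : ∑ A ∈ P, A.card ≤ Fintype.card V := by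
  rw [mem_Pt] at hP
  have h := Finset.card_biUnion (s := P) (t := fun A => A) (fun A hA B hB hAB => hP.2.1 A hA B hB hAB)
  rw [← h]
  exact Finset.card_le_univ _

lemma choose_le (a b : ℕ) (h : a ≤ b) : a.choose 2 ≤ a * b := by
  rw [Nat.choose_two_right]
  refine (Nat.div_le_self _ _).trans ?_
  exact Nat.mul_le_mul_left _ (by omega)

lemma inn_le {P : Finset (Finset V)} (hP : P ∈ Pt V) (m : ℕ) (hm : ∀ A ∈ P, A.card ≤ m) :
    inn P ≤ Fintype.card V * m := by
  unfold inn
  calc ∑ A ∈ P, A.card.choose 2 ≤ ∑ A ∈ P, A.card * m :=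
        Finset.sum_le_sum fun A hA => choose_le _ _ (hm A hA)
    _ = (∑ A ∈ P, A.card) * m := by rw [Finset.sum_mul]
    _ ≤ _ := Nat.mul_le_mul_right _ (card_sum hP)

omit [DecidableEq V] in
lemma le_ind {ω : Sym2 V → Bool} {P : Finset (Finset V)} (h : prp ω P) {A : Finset V}
    (hA : A ∈ P) : A.card ≤ ind ω := by
  classical
  show A.card ≤ Pool.Agent.Helper69.VX.al ω
  unfold Pool.Agent.Helper69.VX.al
  refine Finset.le_sup (f := Finset.card) ?_
  simp only [Finset.mem_filter, Finset.mem_univ, true_and]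
  exact fun u hu v hv huv => h A hA u hu v hv huv

end Pool.Agent.Helper8.UX

namespace Pool.Agent.Helper8.UX

open Finset Filter Pool.Agent.Helper82.CN Pool.Agent.Helper11.PV Pool.Agent.Helper69.VX
  Pool.Agent.Helper69.UX

theorem hVBD (hCHR : StCHR) (hOPT : StOPT) (hPRQ : StPRQ) : StVBD := by
  classical
  intro p t X₀ n 𝒜 bad hp0 hp1 ht0 ht1 hX hA hbad
  choose Pc hPc using fun ω => (hOPT n ω).1
  have h1 := hCHR p t n Pc hp0 hp1 ht0 ht1 hPc
  set f : (Sym2 (Fin n) → Bool) → ℝ := fun ω => if bad ω then (ind ω : ℝ) else 0 with hf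
  have hf0 : ∀ ω, 0 ≤ f ω := by
    intro ω
    simp only [hf]
    split_ifs
    · exact Nat.cast_nonneg _
    · exact le_refl _
  have hn0 : (0 : ℝ) ≤ n := Nat.cast_nonneg n
  have hbd : ∀ ω : Sym2 (Fin n) → Bool, Pc ω ∉ 𝒜 → ((inn (Pc ω) : ℕ) : ℝ) ≤ n * f ω := by
    intro ω hω
    have h2 : bad ω := hbad ω (Pc ω) (hPc ω).1 (hPc ω).2.1 (hPc ω).2.2 hω
    simp only [hf, if_pos h2]
    have h3 := inn_le (hPc ω).1 (ind ω) (fun A hA => le_ind (hPc ω).2.1 hA)
    rw [Fintype.card_fin] at h3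
    exact_mod_cast h3
  set g : (Sym2 (Fin n) → Bool) → (Sym2 (Fin n) → Bool) → (Sym2 (Fin n) → Bool) → ℝ :=
    fun κ ω η => ∑ P ∈ 𝒜, ∑ Q ∈ 𝒜.filter (fun Q => X₀ < (ovl P Q : ℝ)),
      if prp ω P ∧ prp (mix {e | κ e = true} ω η) Q then (1 : ℝ) else 0 with hg
  have hg0 : ∀ κ ω η, 0 ≤ g κ ω η := by
    intro κ ω η
    refine Finset.sum_nonneg fun P _ => Finset.sum_nonneg fun Q _ => ?_
    split_ifs
    · exact zero_le_one
    · exact le_refl _
  have hpt : ∀ κ ω η, (ovl (Pc ω) (Pc (mix {e | κ e = true} ω η)) : ℝ) ≤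
      X₀ + (n : ℝ) ^ 2 * g κ ω η + n * f ω + n * f (mix {e | κ e = true} ω η) := by
    intro κ ω η
    set ω' := mix {e | κ e = true} ω η with hω'
    have e1 : 0 ≤ (n : ℝ) ^ 2 * g κ ω η := mul_nonneg (sq_nonneg _) (hg0 κ ω η)
    have e2 : 0 ≤ (n : ℝ) * f ω := mul_nonneg hn0 (hf0 ω)
    have e3 : 0 ≤ (n : ℝ) * f ω' := mul_nonneg hn0 (hf0 ω')
    by_cases c1 : (ovl (Pc ω) (Pc ω') : ℝ) ≤ X₀
    · linarith
    · push Not at c1
      by_cases c2 : Pc ω ∈ 𝒜
      · by_cases c3 : Pc ω' ∈ 𝒜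
        · have h2 : ovl (Pc ω) (Pc ω') ≤ n * n := by
            refine (ovl_le_left (hPc ω').1).trans ?_
            have h3 := inn_le (hPc ω).1 n (fun A _ => by
              have := Finset.card_le_univ A
              rwa [Fintype.card_fin] at this)
            rwa [Fintype.card_fin] at h3
          have h3 : (ovl (Pc ω) (Pc ω') : ℝ) ≤ (n : ℝ) ^ 2 := by
            rw [sq]
            exact_mod_cast h2
          have h4 : 1 ≤ g κ ω η := by
            have h5 : (if prp ω (Pc ω) ∧ prp ω' (Pc ω') then (1 : ℝ) else 0) = 1 :=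
              if_pos ⟨(hPc ω).2.1, (hPc ω').2.1⟩
            calc (1 : ℝ) = (if prp ω (Pc ω) ∧ prp ω' (Pc ω') then (1 : ℝ) else 0) := h5.symm
              _ ≤ ∑ Q ∈ 𝒜.filter (fun Q => X₀ < (ovl (Pc ω) Q : ℝ)),
                    (if prp ω (Pc ω) ∧ prp ω' Q then (1 : ℝ) else 0) := by
                  refine Finset.single_le_sum (f := fun Q =>
                    if prp ω (Pc ω) ∧ prp ω' Q then (1 : ℝ) else 0) (fun Q _ => ?_)
                    (Finset.mem_filter.2 ⟨c3, c1⟩)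
                  show (0 : ℝ) ≤ if prp ω (Pc ω) ∧ prp ω' Q then (1 : ℝ) else 0
                  split_ifs
                  · exact zero_le_one
                  · exact le_refl _
              _ ≤ g κ ω η := by
                  refine Finset.single_le_sum (f := fun P =>
                    ∑ Q ∈ 𝒜.filter (fun Q => X₀ < (ovl P Q : ℝ)),
                    (if prp ω P ∧ prp ω' Q then (1 : ℝ) else 0)) (fun P _ => ?_) c2
                  refine Finset.sum_nonneg fun Q _ => ?_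
                  split_ifs
                  · exact zero_le_one
                  · exact le_refl _
          have h5 : (n : ℝ) ^ 2 * 1 ≤ (n : ℝ) ^ 2 * g κ ω η :=
            mul_le_mul_of_nonneg_left h4 (sq_nonneg _)
          linarith
        · have h2 : ovl (Pc ω) (Pc ω') ≤ inn (Pc ω') := by
            rw [ovl_symm]
            exact ovl_le_left (hPc ω).1
          have h3 : (ovl (Pc ω) (Pc ω') : ℝ) ≤ (inn (Pc ω') : ℕ) := by exact_mod_cast h2
          have h4 := hbd ω' c3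
          linarith
      · have h2 : ovl (Pc ω) (Pc ω') ≤ inn (Pc ω) := ovl_le_left (hPc ω').1
        have h3 : (ovl (Pc ω) (Pc ω') : ℝ) ≤ (inn (Pc ω) : ℕ) := by exact_mod_cast h2
        have h4 := hbd ω c2
        linarith
  have h2 : EE (1 - t) (fun κ : Sym2 (Fin n) → Bool => EE p (fun ω => EE p (fun η =>
      (ovl (Pc ω) (Pc (mix {e | κ e = true} ω η)) : ℝ)))) ≤
      EE (1 - t) (fun κ : Sym2 (Fin n) → Bool => EE p (fun ω => EE p (fun η =>
      X₀ + (n : ℝ) ^ 2 * g κ ω η + n * f ω + n * f (mix {e | κ e = true} ω η)))) := by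
    refine EE_mono (by linarith) (by linarith) fun κ => ?_
    refine EE_mono hp0.le hp1.le fun ω => ?_
    exact EE_mono hp0.le hp1.le fun η => hpt κ ω η
  have h3 : EE (1 - t) (fun κ : Sym2 (Fin n) → Bool => EE p (fun ω => EE p (fun η =>
      X₀ + (n : ℝ) ^ 2 * g κ ω η + n * f ω + n * f (mix {e | κ e = true} ω η)))) =
      X₀ + (n : ℝ) ^ 2 * (∑ P ∈ 𝒜, ∑ Q ∈ 𝒜.filter (fun Q => X₀ < (ovl P Q : ℝ)),
      (1 - p) ^ (inn P + inn Q) * ((1 - t * p) / (1 - p)) ^ ovl P Q) + n * EE p f + n * EE p f := by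
    simp only [EE_add, EE_const, EE_mul_left, EE_mix]
    congr 4
    simp only [hg]
    have h5 : ∀ (κ ω : Sym2 (Fin n) → Bool), EE p (fun η => ∑ P ∈ 𝒜,
        ∑ Q ∈ 𝒜.filter (fun Q => X₀ < (ovl P Q : ℝ)),
        if prp ω P ∧ prp (mix {e | κ e = true} ω η) Q then (1 : ℝ) else 0) =
        ∑ P ∈ 𝒜, ∑ Q ∈ 𝒜.filter (fun Q => X₀ < (ovl P Q : ℝ)), EE p (fun η =>
        if prp ω P ∧ prp (mix {e | κ e = true} ω η) Q then (1 : ℝ) else 0) := by
      intro κ ω
      rw [EE_sum]
      exact Finset.sum_congr rfl fun P _ => EE_sum _ _ _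
    simp only [h5]
    simp only [EE_sum]
    refine Finset.sum_congr rfl fun P hP => Finset.sum_congr rfl fun Q hQ => ?_
    exact (hPRQ p t n P Q hp1 (hA P hP) (hA Q (Finset.mem_filter.1 hQ).1)).2.2
  rw [h3] at h2
  linarith

end Pool.Agent.Helper8.UX
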